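import Pool.Agent.H51.ExactFact

namespace Pool.Agent.Results.MP_b3a091_al.Factor

/-- Every countably infinite group has an exact factorization into two infinite subsets. -/
theorem result (G : Type) [Group G] [Countable G] [Infinite G] :
    ∃ A B : Set G, A.Infinite ∧ B.Infinite ∧
      ∀ g : G, ∃! p : G × G, p.1 ∈ A ∧ p.2 ∈ B ∧ p.1 * p.2 = g := by
  obtain ⟨A, B, h1, h2, h3, h4⟩ := Pool.Agent.H51.ExactFact.good (G := G)
  refine ⟨A, B, h1, h2, fun g => ?_⟩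
  obtain ⟨a, ha, b, hb, e⟩ := h4 g
  refine ⟨(a, b), ⟨ha, hb, e⟩, fun p ⟨p1, p2, p3⟩ => ?_⟩
  obtain ⟨e1, e2⟩ := h3 _ p1 _ ha _ p2 _ hb (p3.trans e.symm)
  exact Prod.ext e1 e2

end Pool.Agent.Results.MP_b3a091_al.Factor
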